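import Pool.Agent.Results.MP_4e07e5_an.Bounds

namespace Pool.Agent.Results.MP_4e07e5_an.Asymptotic
open Finset Pool.Agent.Results.MP_4e07e5_an.Bounds

/-- numbers 2^a 12^b -/
def Smo (N : ℕ) : Prop := ∃ a b : ℕ, N = 2^a * 12^b

lemma irr : Irrational (Real.log 12 / Real.log 2) := by
  intro ⟨q, hq⟩
  have h2 : (0:ℝ) < Real.log 2 := Real.log_pos (by norm_num)
  have h12 : (0:ℝ) < Real.log 12 := Real.log_pos (by norm_num)
  have hqpos : (0:ℝ) < q := by rw [hq]; positivity
  have hqpos' : 0 < q := by exact_mod_cast hqpos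
  have hnum : 0 < q.num := Rat.num_pos.mpr hqpos'
  have e : (q.den : ℝ) * Real.log 12 = (q.num.toNat : ℝ) * Real.log 2 := by
    have h3 : ((q.num.toNat : ℤ) : ℝ) = (q.num : ℝ) := by
      rw [Int.toNat_of_nonneg hnum.le]
    have h4 : (q:ℝ) = (q.num : ℝ) / (q.den : ℝ) := by
      exact_mod_cast (Rat.num_div_den q).symm
    have hd : (q.den : ℝ) ≠ 0 := by exact_mod_cast q.den_ne_zero
    rw [h4, div_eq_div_iff hd h2.ne'] at hq
    have h5 : (q.num.toNat : ℝ) = (q.num : ℝ) := by exact_mod_cast h3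
    rw [h5]; linarith
  have e2 : (12:ℝ)^(q.den) = (2:ℝ)^(q.num.toNat) := by
    have h6 : Real.log ((12:ℝ)^(q.den)) = Real.log ((2:ℝ)^(q.num.toNat)) := by
      rw [Real.log_pow, Real.log_pow]; exact e
    exact Real.log_injOn_pos (Set.mem_Ioi.mpr (by positivity)) (Set.mem_Ioi.mpr (by positivity)) h6
  have e3 : (12:ℕ)^(q.den) = (2:ℕ)^(q.num.toNat) := by exact_mod_cast e2
  have h3d : 3 ∣ (12:ℕ)^(q.den) := dvd_pow (by norm_num) q.den_ne_zero
  rw [e3] at h3d
  have := Nat.Prime.dvd_of_dvd_pow Nat.prime_three h3d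
  omega

lemma close (δ : ℝ) (hδ : 0 < δ) : ∃ u v : ℕ, Smo u ∧ Smo v ∧ v < u ∧ (u:ℝ) ≤ (1+δ) * v := by
  have hd : Dense (AddSubgroup.closure {Real.log 12, Real.log 2} : Set ℝ) :=
    dense_addSubgroupClosure_pair_iff.mpr irr
  have hlog : 0 < Real.log (1+δ) := Real.log_pos (by linarith)
  obtain ⟨t, ht1, ht2⟩ := hd.exists_between hlog
  have ht1' : t ∈ AddSubgroup.closure {Real.log 12, Real.log 2} := ht1
  rw [AddSubgroup.mem_closure_pair] at ht1'
  obtain ⟨p, q, hpq⟩ := ht1'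
  simp only [zsmul_eq_mul] at hpq
  have key : ∀ r : ℤ, (r : ℝ) = (r.toNat : ℝ) - ((-r).toNat : ℝ) := by
    intro r
    have : r = (r.toNat : ℤ) - ((-r).toNat : ℤ) := by omega
    exact_mod_cast this
  have hlogf : ∀ a b : ℕ, Real.log ((2^a * 12^b : ℕ) : ℝ) = a * Real.log 2 + b * Real.log 12 := by
    intro a b
    push_cast
    rw [Real.log_mul (by positivity) (by positivity), Real.log_pow, Real.log_pow]
  let u : ℕ := 2^q.toNat * 12^p.toNat
  let v : ℕ := 2^(-q).toNat * 12^(-p).toNat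
  have hu0 : (0:ℝ) < (u:ℝ) := by simp only [u]; positivity
  have hv0 : (0:ℝ) < (v:ℝ) := by simp only [v]; positivity
  have hdiff : Real.log (u:ℝ) - Real.log (v:ℝ) = t := by
    simp only [u, v]
    rw [hlogf, hlogf, ← hpq, key p, key q]; ring
  refine ⟨u, v, ⟨_, _, rfl⟩, ⟨_, _, rfl⟩, ?_, ?_⟩
  · have : Real.log (v:ℝ) < Real.log (u:ℝ) := by linarith [ht2.1]
    have := (Real.log_lt_log_iff hv0 hu0).mp this
    exact_mod_cast this
  · have : Real.log (u:ℝ) ≤ Real.log ((1+δ) * (v:ℝ)) := by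
      rw [Real.log_mul (by positivity) hv0.ne']
      linarith [ht2.2]
    exact (Real.log_le_log_iff hu0 (by positivity)).mp this

lemma Smo.mul {a b : ℕ} (ha : Smo a) (hb : Smo b) : Smo (a*b) := by
  obtain ⟨x, y, rfl⟩ := ha
  obtain ⟨z, w, rfl⟩ := hb
  exact ⟨x+z, y+w, by ring⟩

lemma Smo.pow {a : ℕ} (ha : Smo a) (k : ℕ) : Smo (a^k) := by
  induction k with
  | zero => exact ⟨0, 0, by simp⟩
  | succ k ih => rw [pow_succ]; exact ih.mul ha

lemma Smo.pos {a : ℕ} (ha : Smo a) : 0 < a := by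
  obtain ⟨x, y, rfl⟩ := ha; positivity

lemma approx (δ : ℝ) (hδ : 0 < δ) : ∃ M0 : ℕ, ∀ m ≥ M0, ∃ N, Smo N ∧ N ≤ m ∧ (m:ℝ) ≤ (1+δ) * N := by
  obtain ⟨u, v, hu, hv, hvu, huv⟩ := close δ hδ
  have hv0 : 0 < v := hv.pos
  have hvR : (0:ℝ) < v := by exact_mod_cast hv0
  have huR : (v:ℝ) < u := by exact_mod_cast hvu
  obtain ⟨K, hK⟩ := pow_unbounded_of_one_lt 2 (show 1 < (u:ℝ)/v by rw [lt_div_iff₀ hvR]; linarith)
  have hK' : 2 * v^K < u^K := by
    rw [div_pow, lt_div_iff₀ (by positivity)] at hK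
    exact_mod_cast hK
  refine ⟨v^K, fun m hm => ?_⟩
  have hvK : 0 < v^K := by positivity
  set A := Nat.log 2 (m / v^K) with hA
  have hq0 : m / v^K ≠ 0 := by
    have := Nat.div_pos hm hvK; omega
  have hA1 : 2^A ≤ m / v^K := Nat.pow_log_le_self 2 hq0
  have hA2 : m / v^K < 2^(A+1) := Nat.lt_pow_succ_log_self (by norm_num) _
  have hA1' : v^K * 2^A ≤ m := by
    have := (Nat.le_div_iff_mul_le hvK).mp hA1; linarith [mul_comm (v^K) (2^A)]
  have hA2' : m < 2^(A+1) * v^K := (Nat.div_lt_iff_lt_mul hvK).mp hA2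
  let P : ℕ → Prop := fun k => u^k * v^(K-k) * 2^A ≤ m
  have hP0 : P 0 := by simpa [P] using hA1'
  have hPK : ¬ P K := by
    simp only [P, Nat.sub_self, pow_zero, mul_one, not_le]
    calc m < 2^(A+1) * v^K := hA2'
      _ = 2 * v^K * 2^A := by ring
      _ ≤ u^K * 2^A := Nat.mul_le_mul_right _ hK'.le
  have hex : ∃ k, k < K ∧ P k ∧ ¬ P (k+1) := by
    by_contra hcon
    push Not at hcon
    have : ∀ k ≤ K, P k := by
      intro k
      induction k with
      | zero => intro _; exact hP0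
      | succ k ih => intro hk; exact hcon k (by omega) (ih (by omega))
    exact hPK (this K le_rfl)
  obtain ⟨k, hkK, hk1, hk2⟩ := hex
  refine ⟨u^k * v^(K-k) * 2^A, ((hu.pow k).mul (hv.pow (K-k))).mul ⟨A, 0, by simp⟩, hk1, ?_⟩
  simp only [P, not_le] at hk2
  have h1 : (m:ℝ) < (u:ℝ)^(k+1) * (v:ℝ)^(K-(k+1)) * 2^A := by exact_mod_cast hk2
  have h2 : K - k = (K - (k+1)) + 1 := by omega
  push_cast
  rw [h2]
  have h3 : (0:ℝ) ≤ (u:ℝ)^k * (v:ℝ)^(K-(k+1)) * 2^A := by positivity
  calc (m:ℝ) ≤ (u:ℝ)^(k+1) * (v:ℝ)^(K-(k+1)) * 2^A := h1.le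
    _ = ((u:ℝ)^k * (v:ℝ)^(K-(k+1)) * 2^A) * u := by ring
    _ ≤ ((u:ℝ)^k * (v:ℝ)^(K-(k+1)) * 2^A) * ((1+δ) * v) := mul_le_mul_of_nonneg_left huv h3
    _ = (1+δ) * ((u:ℝ)^k * (v:ℝ)^(K-(k+1)+1) * 2^A) := by ring


/-- Hadamard numbers -/
def IsHad (N : ℕ) : Prop := ∃ H : Fin N → Fin N → ℤ, (∀ a b, H a b = 1 ∨ H a b = -1) ∧
  (∀ a b, ∑ c, H a c * H b c = if a = b then (N:ℤ) else 0) ∧
  (∀ a b, ∑ c, H c a * H c b = if a = b then (N:ℤ) else 0)

lemma isHad_one : IsHad 1 := ⟨fun _ _ => 1, by decide, by decide, by decide⟩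

def H2 : Fin 2 → Fin 2 → ℤ := ![![1, 1], ![1, -1]]

lemma isHad_two : IsHad 2 := ⟨H2, by decide, by decide, by decide⟩

def H12 (i j : Fin 12) : ℤ :=
  if i.val = 0 then 1 else if j.val = 0 then -1 else if i = j then 1
  else if (j.val + 11 - i.val) % 11 ∈ [1, 3, 4, 5, 9] then 1 else -1

lemma isHad_twelve : IsHad 12 :=
  ⟨H12, by decide +kernel, by decide +kernel, by decide +kernel⟩

lemma IsHad.mul {M N : ℕ} (hM : IsHad M) (hN : IsHad N) : IsHad (M * N) := by
  obtain ⟨A, hA1, hA2, hA3⟩ := hM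
  obtain ⟨B, hB1, hB2, hB3⟩ := hN
  let e : Fin (M*N) ≃ Fin M × Fin N := finProdFinEquiv.symm
  refine ⟨fun x y => A (e x).1 (e y).1 * B (e x).2 (e y).2, ?_, ?_, ?_⟩
  · intro a b
    rcases hA1 (e a).1 (e b).1 with h | h <;> rcases hB1 (e a).2 (e b).2 with h' | h' <;>
      simp [h, h']
  · intro a b
    rw [Equiv.sum_comp e (fun c => A (e a).1 c.1 * B (e a).2 c.2 * (A (e b).1 c.1 * B (e b).2 c.2)),
      Fintype.sum_prod_type]
    have : ∀ p q, A (e a).1 p * B (e a).2 q * (A (e b).1 p * B (e b).2 q) =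
      (A (e a).1 p * A (e b).1 p) * (B (e a).2 q * B (e b).2 q) := by intro p q; ring
    simp only [this, ← Finset.mul_sum, hB2, ← Finset.sum_mul, hA2]
    by_cases h1 : (e a).1 = (e b).1
    · by_cases h2 : (e a).2 = (e b).2
      · have : a = b := e.injective (Prod.ext h1 h2)
        simp [this]
      · have : a ≠ b := fun h => h2 (by rw [h])
        simp [this, h2]
    · have : a ≠ b := fun h => h1 (by rw [h])
      simp [this, h1]
  · intro a b
    rw [Equiv.sum_comp e (fun c => A c.1 (e a).1 * B c.2 (e a).2 * (A c.1 (e b).1 * B c.2 (e b).2)),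
      Fintype.sum_prod_type]
    have : ∀ p q, A p (e a).1 * B q (e a).2 * (A p (e b).1 * B q (e b).2) =
      (A p (e a).1 * A p (e b).1) * (B q (e a).2 * B q (e b).2) := by intro p q; ring
    simp only [this, ← Finset.mul_sum, hB3, ← Finset.sum_mul, hA3]
    by_cases h1 : (e a).1 = (e b).1
    · by_cases h2 : (e a).2 = (e b).2
      · have : a = b := e.injective (Prod.ext h1 h2)
        simp [this]
      · have : a ≠ b := fun h => h2 (by rw [h])
        simp [this, h2]
    · have : a ≠ b := fun h => h1 (by rw [h])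
      simp [this, h1]

lemma IsHad.pow {M : ℕ} (hM : IsHad M) (k : ℕ) : IsHad (M^k) := by
  induction k with
  | zero => simpa using isHad_one
  | succ k ih => rw [pow_succ]; exact ih.mul hM

/-- an interpolation projector with coordinates indexed by `κ`, nodes indexed by `Option κ`,
with Lebesgue function bounded by `C` -/
def GoodT (κ : Type) [Fintype κ] [DecidableEq κ] (C : ℝ) : Prop :=
  ∃ (x : Option κ → κ → ℝ) (c : Option κ → ℝ) (a : Option κ → κ → ℝ),
    (∀ o i, 0 ≤ x o i ∧ x o i ≤ 1) ∧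
    (∀ o o', c o + ∑ i, a o i * x o' i = if o = o' then 1 else 0) ∧
    ∀ y : κ → ℝ, (∀ i, 0 ≤ y i ∧ y i ≤ 1) → ∑ o, |c o + ∑ i, a o i * y i| ≤ C

lemma goodT_of_lag {n : ℕ} {x : Fin (n+1) → Fin n → ℝ} {lam : Fin (n+1) → ℝ × (Fin n → ℝ)}
    (h : IsLagrange n x lam) {C : ℝ} (hC : ∀ y ∈ Cube n, ∑ j, |affEval (lam j) y| ≤ C) :
    GoodT (Fin n) C := by
  let e : Option (Fin n) ≃ Fin (n+1) := (finSuccEquiv n).symm
  refine ⟨fun o => x (e o), fun o => (lam (e o)).1, fun o => (lam (e o)).2, ?_, ?_, ?_⟩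
  · intro o i; exact h.mem (e o) i
  · intro o o'
    have := h.delta (e o) (e o')
    unfold affEval at this
    rw [this]
    simp [e.injective.eq_iff]
  · intro y hy
    have := hC y hy
    rw [← Equiv.sum_comp e] at this
    exact this

lemma theta_le_of_goodT {n : ℕ} {C : ℝ} (h : GoodT (Fin n) C) : theta n ≤ C := by
  obtain ⟨x, c, a, h1, h2, h3⟩ := h
  let e : Fin (n+1) ≃ Option (Fin n) := finSuccEquiv n
  have hL : IsLagrange n (fun j => x (e j)) (fun j => (c (e j), a (e j))) := by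
    refine ⟨fun k i => h1 _ _, fun j k => ?_⟩
    unfold affEval
    simp only
    rw [h2]
    simp [e.injective.eq_iff]
  refine theta_le hL (fun y hy => ?_)
  have := h3 y hy
  rw [← Equiv.sum_comp e] at this
  exact this

lemma goodT_mono {κ : Type} [Fintype κ] [DecidableEq κ] {C C' : ℝ} (h : GoodT κ C) (hC : C ≤ C') :
    GoodT κ C' := by
  obtain ⟨x, c, a, h1, h2, h3⟩ := h
  exact ⟨x, c, a, h1, h2, fun y hy => (h3 y hy).trans hC⟩

lemma goodT_equiv {κ κ' : Type} [Fintype κ] [DecidableEq κ] [Fintype κ'] [DecidableEq κ']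
    (e : κ' ≃ κ) {C : ℝ} (h : GoodT κ C) : GoodT κ' C := by
  obtain ⟨x, c, a, h1, h2, h3⟩ := h
  let E : Option κ' ≃ Option κ := Equiv.optionCongr e
  refine ⟨fun o i => x (E o) (e i), fun o => c (E o), fun o i => a (E o) (e i), ?_, ?_, ?_⟩
  · intro o i; exact h1 _ _
  · intro o o'
    rw [Equiv.sum_comp e (fun i => a (E o) i * x (E o') i), h2]
    simp [E.injective.eq_iff]
  · intro y hy
    have := h3 (fun i => y (e.symm i)) (fun i => hy _)
    rw [← Equiv.sum_comp E] at this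
    refine le_trans (le_of_eq ?_) this
    refine Finset.sum_congr rfl (fun o _ => ?_)
    congr 2
    rw [← Equiv.sum_comp e]
    simp

lemma goodT_sum {κ κ' : Type} [Fintype κ] [DecidableEq κ] [Fintype κ'] [DecidableEq κ']
    {C C' : ℝ} (h : GoodT κ C) (h' : GoodT κ' C') : GoodT (κ ⊕ κ') (C + C' + 1) := by
  obtain ⟨x, c, a, h1, h2, h3⟩ := h
  obtain ⟨x', c', a', h1', h2', h3'⟩ := h'
  let X : Option (κ ⊕ κ') → κ ⊕ κ' → ℝ := fun o =>
    match o with
    | none => Sum.elim (x none) (x' none)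
    | some (Sum.inl k) => Sum.elim (x (some k)) (x' none)
    | some (Sum.inr k) => Sum.elim (x none) (x' (some k))
  let c'' : Option (κ ⊕ κ') → ℝ := fun o =>
    match o with
    | none => c none + c' none - 1
    | some (Sum.inl k) => c (some k)
    | some (Sum.inr k) => c' (some k)
  let a'' : Option (κ ⊕ κ') → κ ⊕ κ' → ℝ := fun o =>
    match o with
    | none => Sum.elim (a none) (a' none)
    | some (Sum.inl k) => Sum.elim (a (some k)) (fun _ => 0)
    | some (Sum.inr k) => Sum.elim (fun _ => 0) (a' (some k))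
  refine ⟨X, c'', a'', ?_, ?_, ?_⟩
  · intro o i
    rcases o with _ | (k | k) <;> rcases i with i | i <;> simp [X, h1, h1']
  · intro o o'
    rcases o with _ | (k | k) <;> rcases o' with _ | (l | l)
    · have e1 := h2 none none
      have e2 := h2' none none
      simp only [if_true] at e1 e2
      simp only [X, c'', a'', Fintype.sum_sum_type, Sum.elim_inl, Sum.elim_inr, if_true]
      linarith
    · have e1 := h2 none (some l)
      have e2 := h2' none none
      simp only [if_true, reduceCtorEq, if_false] at e1 e2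
      simp only [X, c'', a'', Fintype.sum_sum_type, Sum.elim_inl, Sum.elim_inr, reduceCtorEq, if_false]
      linarith
    · have e1 := h2 none none
      have e2 := h2' none (some l)
      simp only [if_true, reduceCtorEq, if_false] at e1 e2
      simp only [X, c'', a'', Fintype.sum_sum_type, Sum.elim_inl, Sum.elim_inr, reduceCtorEq, if_false]
      linarith
    · have e1 := h2 (some k) none
      simp only [reduceCtorEq, if_false] at e1
      simp only [X, c'', a'', Fintype.sum_sum_type, Sum.elim_inl, Sum.elim_inr, reduceCtorEq, if_false,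
        zero_mul, Finset.sum_const_zero, add_zero]
      exact e1
    · have e1 := h2 (some k) (some l)
      simp only [X, c'', a'', Fintype.sum_sum_type, Sum.elim_inl, Sum.elim_inr,
        zero_mul, Finset.sum_const_zero, add_zero]
      rw [e1]
      simp
    · have e1 := h2 (some k) none
      simp only [reduceCtorEq, if_false] at e1
      simp only [X, c'', a'', Fintype.sum_sum_type, Sum.elim_inl, Sum.elim_inr,
        zero_mul, Finset.sum_const_zero, add_zero]
      rw [e1]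
      simp
    · have e1 := h2' (some k) none
      simp only [reduceCtorEq, if_false] at e1
      simp only [X, c'', a'', Fintype.sum_sum_type, Sum.elim_inl, Sum.elim_inr, reduceCtorEq, if_false,
        zero_mul, Finset.sum_const_zero, zero_add]
      exact e1
    · have e1 := h2' (some k) none
      simp only [reduceCtorEq, if_false] at e1
      simp only [X, c'', a'', Fintype.sum_sum_type, Sum.elim_inl, Sum.elim_inr,
        zero_mul, Finset.sum_const_zero, zero_add]
      rw [e1]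
      simp
    · have e1 := h2' (some k) (some l)
      simp only [X, c'', a'', Fintype.sum_sum_type, Sum.elim_inl, Sum.elim_inr,
        zero_mul, Finset.sum_const_zero, zero_add]
      rw [e1]
      simp
  · intro y hy
    have e1 := h3 (fun i => y (Sum.inl i)) (fun i => hy _)
    have e2 := h3' (fun i => y (Sum.inr i)) (fun i => hy _)
    rw [Fintype.sum_option] at e1 e2 ⊢
    rw [Fintype.sum_sum_type]
    simp only [c'', a'', Fintype.sum_sum_type, Sum.elim_inl, Sum.elim_inr,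
        zero_mul, Finset.sum_const_zero, add_zero, zero_add]
    have e3 : |c none + c' none - 1 + (∑ i, a none i * y (Sum.inl i) + ∑ i, a' none i * y (Sum.inr i))| ≤
        |c none + ∑ i, a none i * y (Sum.inl i)| + |c' none + ∑ i, a' none i * y (Sum.inr i)| + 1 := by
      have : c none + c' none - 1 + (∑ i, a none i * y (Sum.inl i) + ∑ i, a' none i * y (Sum.inr i)) =
        (c none + ∑ i, a none i * y (Sum.inl i)) + (c' none + ∑ i, a' none i * y (Sum.inr i)) + (-1) := by ring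
      rw [this]
      refine le_trans (abs_add_le _ _) ?_
      have := abs_add_le (c none + ∑ i, a none i * y (Sum.inl i)) (c' none + ∑ i, a' none i * y (Sum.inr i))
      simp only [abs_neg, abs_one]
      linarith
    linarith

lemma good_add {m n : ℕ} {C C' : ℝ} (h : GoodT (Fin m) C) (h' : GoodT (Fin n) C') :
    GoodT (Fin (m+n)) (C + C' + 1) :=
  goodT_equiv finSumFinEquiv.symm (goodT_sum h h')


lemma good_of {n : ℕ} (Z B : Fin (n+1) → Fin (n+1) → ℝ) (h0 : ∀ k, Z k 0 = 1)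
    (h1 : ∀ k i, |Z k i| ≤ 1) (h2 : ∀ j k, ∑ i, B j i * Z k i = if j = k then 1 else 0) (C : ℝ)
    (hC : ∀ ζ : Fin (n+1) → ℝ, (∀ i, |ζ i| ≤ 1) → ∑ j, |∑ i, B j i * ζ i| ≤ C) :
    GoodT (Fin n) C := by
  have hL : IsLagrange n (fun k i => (1 + Z k i.succ) / 2) (fun j => ofCen (B j)) := by
    refine ⟨fun k i => ?_, fun j k => ?_⟩
    · have := abs_le.mp (h1 k i.succ)
      constructor <;> linarith [this.1, this.2]
    · rw [ofCen_eval, ← h2 j k]
      refine Finset.sum_congr rfl (fun i _ => ?_)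
      refine Fin.cases ?_ (fun i => ?_) i
      · simp [h0]
      · simp only [Fin.cons_succ]; ring
  refine goodT_of_lag hL (fun y hy => ?_)
  simp only [ofCen_eval]
  refine hC _ (fun i => ?_)
  refine Fin.cases ?_ (fun i => ?_) i
  · simp
  · simp only [Fin.cons_succ]
    rw [abs_le]; constructor <;> linarith [(hy i).1, (hy i).2]

theorem good_hart (n : ℕ) : GoodT (Fin n) (Real.sqrt (2 * n + 1)) := by
  have hn : (0:ℝ) < (n:ℝ) + 1 := by positivity
  refine good_of (fun k i => hart (n+1) k i / wt i) (fun j i => wt i * hart (n+1) j i / (n+1)) ?_ ?_ ?_ _ ?_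
  · intro k
    simp [hart, wt]
  · intro k i
    rw [abs_div, abs_of_pos (wt_pos i), div_le_one (wt_pos i)]
    by_cases hi : i = 0
    · subst hi; simp [hart, wt]
    · simp only [wt, hi, if_false]
      exact hart_le _ _ _
  · intro j k
    have : ∀ i : Fin (n+1), wt i * hart (n+1) j i / (n+1) * (hart (n+1) k i / wt i) =
        (hart (n+1) i j * hart (n+1) i k) / (n+1) := by
      intro i
      have := (wt_pos i).ne'
      rw [hart_symm (n+1) j i, hart_symm (n+1) k i]
      field_simp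
    simp only [this]
    rw [← Finset.sum_div, hart_orth]
    split_ifs
    · exact div_self hn.ne'
    · simp
  · intro ζ hζ
    have key : ∑ j : Fin (n+1), (∑ i : Fin (n+1), wt i * hart (n+1) j i / (n+1) * ζ i)^2 =
        (∑ i : Fin (n+1), (wt i * ζ i)^2) / (n+1) := by
      have h1 : ∀ j : Fin (n+1), (∑ i : Fin (n+1), wt i * hart (n+1) j i / (n+1) * ζ i)^2 =
          ∑ a : Fin (n+1), ∑ b : Fin (n+1), (wt a * ζ a) * (wt b * ζ b) / (n+1)^2 *
            (hart (n+1) j a * hart (n+1) j b) := by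
        intro j
        rw [sq, Finset.sum_mul_sum]
        refine Finset.sum_congr rfl (fun a _ => Finset.sum_congr rfl (fun b _ => ?_))
        field_simp
      simp only [h1]
      rw [Finset.sum_comm, Finset.sum_div]
      refine Finset.sum_congr rfl (fun a _ => ?_)
      rw [Finset.sum_comm]
      simp only [← Finset.mul_sum, hart_orth]
      simp
      field_simp
    have h2 : (∑ j : Fin (n+1), |∑ i : Fin (n+1), wt i * hart (n+1) j i / (n+1) * ζ i|)^2 ≤ 2 * n + 1 := by
      refine le_trans (sq_sum_le_card_mul_sum_sq) ?_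
      simp only [sq_abs]
      rw [key, Finset.card_univ, Fintype.card_fin]
      push_cast
      rw [mul_div_cancel₀ _ hn.ne']
      rw [← sum_wt_sq n]
      refine Finset.sum_le_sum (fun i _ => ?_)
      rw [mul_pow]
      have h3 : (ζ i)^2 ≤ 1 := by
        rw [← sq_abs]; nlinarith [abs_nonneg (ζ i), hζ i]
      nlinarith [sq_nonneg (wt i)]
    exact Real.le_sqrt_of_sq_le h2

theorem good_had (n : ℕ) (h : IsHad (n+1)) : GoodT (Fin n) (Real.sqrt (n + 1)) := by
  obtain ⟨H, hH1, hH2, hH3⟩ := h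
  have hn : (0:ℝ) < (n:ℝ) + 1 := by positivity
  have hsq : ∀ a b, (H a b : ℝ) * H a b = 1 := by
    intro a b; rcases hH1 a b with h | h <;> rw [h] <;> norm_num
  have habs : ∀ a b, |(H a b : ℝ)| = 1 := by
    intro a b; rcases hH1 a b with h | h <;> rw [h] <;> norm_num
  have hR2 : ∀ a b, ∑ c, (H a c : ℝ) * H b c = if a = b then (n:ℝ)+1 else 0 := by
    intro a b; exact_mod_cast hH2 a b
  have hR3 : ∀ a b, ∑ c, (H c a : ℝ) * H c b = if a = b then (n:ℝ)+1 else 0 := by
    intro a b; exact_mod_cast hH3 a b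
  refine good_of (fun k i => (H k 0 : ℝ) * H k i) (fun j i => (H j 0 : ℝ) * H j i / (n+1)) ?_ ?_ ?_ _ ?_
  · intro k; exact hsq k 0
  · intro k i; rw [abs_mul, habs, habs]; norm_num
  · intro j k
    have : ∀ i, (H j 0 : ℝ) * H j i / (n+1) * ((H k 0 : ℝ) * H k i) =
        ((H j 0 : ℝ) * H k 0) / (n+1) * (H j i * H k i) := by intro i; ring
    simp only [this, ← Finset.mul_sum, hR2]
    by_cases hjk : j = k
    · subst hjk
      simp only [if_true, hsq]
      field_simp
    · simp [hjk]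
  · intro ζ hζ
    have key : ∑ j : Fin (n+1), (∑ i : Fin (n+1), (H j 0 : ℝ) * H j i / (n+1) * ζ i)^2 =
        (∑ i : Fin (n+1), (ζ i)^2) / (n+1) := by
      have h1 : ∀ j : Fin (n+1), (∑ i : Fin (n+1), (H j 0 : ℝ) * H j i / (n+1) * ζ i)^2 =
          ∑ a : Fin (n+1), ∑ b : Fin (n+1), (ζ a) * (ζ b) / (n+1)^2 *
            ((H j a : ℝ) * H j b) := by
        intro j
        rw [sq, Finset.sum_mul_sum]
        refine Finset.sum_congr rfl (fun a _ => Finset.sum_congr rfl (fun b _ => ?_))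
        have := hsq j 0
        calc (H j 0 : ℝ) * H j a / (n+1) * ζ a * ((H j 0 : ℝ) * H j b / (n+1) * ζ b)
            = ((H j 0 : ℝ) * H j 0) * (ζ a * ζ b / (n+1)^2 * ((H j a : ℝ) * H j b)) := by
              field_simp
          _ = ζ a * ζ b / (n+1)^2 * ((H j a : ℝ) * H j b) := by rw [this, one_mul]
      simp only [h1]
      rw [Finset.sum_comm, Finset.sum_div]
      refine Finset.sum_congr rfl (fun a _ => ?_)
      rw [Finset.sum_comm]
      simp only [← Finset.mul_sum, hR3]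
      simp
      field_simp
    have h2 : (∑ j : Fin (n+1), |∑ i : Fin (n+1), (H j 0 : ℝ) * H j i / (n+1) * ζ i|)^2 ≤ n + 1 := by
      refine le_trans (sq_sum_le_card_mul_sum_sq) ?_
      simp only [sq_abs]
      rw [key, Finset.card_univ, Fintype.card_fin]
      push_cast
      rw [mul_div_cancel₀ _ hn.ne']
      have h4 : ∀ i, (ζ i)^2 ≤ 1 := by
        intro i; rw [← sq_abs]; nlinarith [abs_nonneg (ζ i), hζ i]
      refine le_trans (Finset.sum_le_sum (fun i _ => h4 i)) ?_
      simp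
    exact Real.le_sqrt_of_sq_le h2


lemma smo_had {N : ℕ} (h : Smo N) : IsHad N := by
  obtain ⟨a, b, rfl⟩ := h
  exact (isHad_two.pow a).mul (isHad_twelve.pow b)

theorem upper_asym (ε : ℝ) (hε : 0 < ε) :
    ∃ n0 : ℕ, ∀ n : ℕ, n0 ≤ n → theta n ≤ (1 + ε) * Real.sqrt n := by
  obtain ⟨M0, hM0⟩ := approx (ε^2/8) (by positivity)
  refine ⟨max M0 (⌈(6/ε + 1)^2⌉₊), fun n hn => ?_⟩
  have hn1 : M0 ≤ n := le_trans (le_max_left _ _) hn
  have hn2 : (6/ε + 1)^2 ≤ (n:ℝ) := by
    refine le_trans (Nat.le_ceil _) ?_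
    exact_mod_cast le_trans (le_max_right _ _) hn
  obtain ⟨N, hN, hNle, hNge⟩ := hM0 (n+1) (by omega)
  obtain ⟨N', rfl⟩ : ∃ N', N = N' + 1 := ⟨N - 1, by have := hN.pos; omega⟩
  obtain ⟨r, hr⟩ : ∃ r, n = N' + r := ⟨n - N', by omega⟩
  have hgood : GoodT (Fin n) (Real.sqrt (N' + 1) + Real.sqrt (2 * r + 1) + 1) := by
    rw [hr]
    exact good_add (good_had N' (smo_had hN)) (good_hart r)
  refine le_trans (theta_le_of_goodT hgood) ?_
  have hrR : (n:ℝ) = N' + r := by exact_mod_cast hr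
  have hsn0 : 0 ≤ Real.sqrt n := Real.sqrt_nonneg _
  have hsn : Real.sqrt n ^ 2 = n := Real.sq_sqrt (by positivity)
  have hr0 : (0:ℝ) ≤ r := by positivity
  have hN0 : (0:ℝ) ≤ N' := by positivity
  have h1 : Real.sqrt (N' + 1) ≤ Real.sqrt n + 1 := by
    rw [Real.sqrt_le_left (by positivity)]
    nlinarith
  push_cast at hNge
  have hr1 : (r:ℝ) ≤ ε^2/8 * (n+1) := by
    have : (N':ℝ) + 1 ≤ n + 1 := by linarith
    nlinarith [sq_nonneg ε, mul_le_mul_of_nonneg_left this (show (0:ℝ) ≤ ε^2/8 by positivity)]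
  have h2 : Real.sqrt (2 * r + 1) ≤ ε/2 * (Real.sqrt n + 1) + 1 := by
    rw [Real.sqrt_le_left (by positivity)]
    have e1 : (2:ℝ) * r ≤ ε^2/4 * (n+1) := by linarith
    have e2 : (ε/2 * (Real.sqrt n + 1))^2 ≥ ε^2/4 * (n+1) := by
      have : (Real.sqrt n + 1)^2 ≥ n + 1 := by nlinarith
      nlinarith [sq_nonneg ε, mul_le_mul_of_nonneg_left this (show (0:ℝ) ≤ ε^2/4 by positivity)]
    have e3 : 0 ≤ ε/2 * (Real.sqrt n + 1) := by positivity
    nlinarith
  have h3 : 6/ε + 1 ≤ Real.sqrt n := Real.le_sqrt_of_sq_le hn2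
  have h4 : 3 + ε/2 ≤ ε/2 * Real.sqrt n := by
    have : ε/2 * (6/ε + 1) ≤ ε/2 * Real.sqrt n := mul_le_mul_of_nonneg_left h3 (by positivity)
    have e : ε/2 * (6/ε + 1) = 3 + ε/2 := by field_simp; ring
    linarith
  nlinarith

lemma wallis (k : ℕ) : Real.Wallis.W k *
    ((2 * (k:ℝ) + 1) * ((Nat.centralBinom k : ℝ) / 4^k)^2) = 1 := by
  induction k with
  | zero => simp [Real.Wallis.W]
  | succ k ih =>
    have h := Nat.succ_mul_centralBinom_succ k
    have h' : ((k:ℝ)+1) * (Nat.centralBinom (k+1) : ℝ) = 2 * (2 * k + 1) * (Nat.centralBinom k : ℝ) := by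
      exact_mod_cast h
    have hk : (k:ℝ) + 1 ≠ 0 := by positivity
    have h'' : (Nat.centralBinom (k+1) : ℝ) = 2 * (2 * k + 1) * (Nat.centralBinom k : ℝ) / (k+1) := by
      field_simp; linarith
    rw [Real.Wallis.W_succ, h'']
    have e : (Real.Wallis.W k * ((2 * (k:ℝ) + 2) / (2 * k + 1) * ((2 * k + 2) / (2 * k + 3)))) *
        ((2 * ((k+1 : ℕ):ℝ) + 1) * ((2 * (2 * k + 1) * (Nat.centralBinom k : ℝ) / (k+1)) / 4^(k+1))^2) =
        Real.Wallis.W k * ((2 * (k:ℝ) + 1) * ((Nat.centralBinom k : ℝ) / 4^k)^2) := by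
      push_cast
      have h1 : (2 * (k:ℝ) + 1) ≠ 0 := by positivity
      have h2 : (2 * (k:ℝ) + 3) ≠ 0 := by positivity
      have h3 : (2 * ((k:ℝ) + 1) + 1) = 2 * k + 3 := by ring
      rw [h3, pow_succ]
      field_simp
      ring
    rw [e, ih]

lemma cb_lower (k : ℕ) : 2 / Real.pi ≤ (2 * (k:ℝ) + 1) * ((Nat.centralBinom k : ℝ) / 4^k)^2 := by
  have h := wallis k
  have hW := Real.Wallis.W_le k
  have hpi := Real.pi_pos
  set c := (2 * (k:ℝ) + 1) * ((Nat.centralBinom k : ℝ) / 4^k)^2 with hc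
  have hc0 : 0 ≤ c := by positivity
  rw [div_le_iff₀ hpi]
  nlinarith

lemma low_val (k : ℕ) : Real.sqrt (2 * (2 * (k:ℝ) + 1) / Real.pi) ≤
    (2 * (k:ℝ) + 1) * ((Nat.centralBinom k : ℝ) / 4^k) := by
  apply Real.sqrt_le_iff.mpr
  refine ⟨by positivity, ?_⟩
  have h := cb_lower k
  have hk : (0:ℝ) < 2 * (k:ℝ) + 1 := by positivity
  calc 2 * (2 * (k:ℝ) + 1) / Real.pi = (2 * (k:ℝ) + 1) * (2 / Real.pi) := by ring
    _ ≤ (2 * (k:ℝ) + 1) * ((2 * (k:ℝ) + 1) * ((Nat.centralBinom k : ℝ) / 4^k)^2) :=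
        mul_le_mul_of_nonneg_left h hk.le
    _ = _ := by ring

theorem lower_asym (n : ℕ) : Real.sqrt (2 * n / Real.pi) ≤ theta n := by
  refine le_trans ?_ (theta_lower n)
  have hpi := Real.pi_pos
  rcases Nat.even_or_odd' n with ⟨k, rfl | rfl⟩
  · refine le_trans ?_ (le_trans (low_val k) (le_of_eq ?_))
    · apply Real.sqrt_le_sqrt
      apply div_le_div_of_nonneg_right _ hpi.le
      push_cast; linarith
    · have : 2 * k / 2 = k := by omega
      rw [this, Nat.centralBinom, pow_mul]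
      push_cast; norm_num; ring
  · refine le_trans ?_ (le_trans (low_val k) (le_of_eq ?_))
    · apply Real.sqrt_le_sqrt
      apply div_le_div_of_nonneg_right _ hpi.le
      push_cast; linarith
    · have h2 : (2 * k + 1) / 2 = k := by omega
      have h3 := Nat.add_one_mul_choose_eq (2*k) k
      have h4 := Nat.choose_symm_half k
      rw [h4] at h3
      have h5 : (2 * (k:ℝ) + 1) * (Nat.centralBinom k : ℝ) = ((2*k+1).choose k : ℝ) * (k + 1) := by
        rw [Nat.centralBinom]; exact_mod_cast h3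
      rw [h2]
      have h6 : (2:ℝ)^(2*k+1) = 2 * 4^k := by
        rw [pow_succ, pow_mul]; norm_num; ring
      rw [h6, ← mul_div_assoc, h5]
      push_cast
      field_simp
      ring

theorem upper_had (n N : ℕ) (hN : IsHad N) (h1 : 1 ≤ N) (h2 : N ≤ n + 1) :
    theta n ≤ Real.sqrt N + Real.sqrt (2 * ((n:ℝ) + 1 - N) + 1) + 1 := by
  obtain ⟨N', rfl⟩ : ∃ N', N = N' + 1 := ⟨N - 1, by omega⟩
  obtain ⟨r, hr⟩ : ∃ r, n = N' + r := ⟨n - N', by omega⟩
  have hgood : GoodT (Fin n) (Real.sqrt (N' + 1) + Real.sqrt (2 * r + 1) + 1) := by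
    rw [hr]
    exact good_add (good_had N' hN) (good_hart r)
  refine le_trans (theta_le_of_goodT hgood) (le_of_eq ?_)
  have hrR : (n:ℝ) = N' + r := by exact_mod_cast hr
  rw [hrR]
  push_cast
  have : (N':ℝ) + r + 1 - (N' + 1) = r := by ring
  rw [this]

lemma good_theta (n : ℕ) (η : ℝ) (hη : 0 < η) : GoodT (Fin n) (theta n + η) := by
  obtain ⟨x0, lam0, h0⟩ := exists_lagrange n
  have hne : {r | ∃ x lam, IsLagrange n x lam ∧ r = projNorm n x lam}.Nonempty := ⟨_, x0, lam0, h0, rfl⟩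
  obtain ⟨r, ⟨x, lam, h, rfl⟩, hr⟩ := exists_lt_of_csInf_lt hne
    (show sInf {r | ∃ x lam, IsLagrange n x lam ∧ r = projNorm n x lam} < theta n + η by
      unfold theta; linarith)
  exact goodT_of_lag h (fun y hy => (leb_le h hy).trans hr.le)

theorem subadd (m n : ℕ) : theta (m + n) ≤ theta m + theta n + 1 := by
  refine le_of_forall_pos_le_add (fun η hη => ?_)
  have h := theta_le_of_goodT (good_add (good_theta m (η/2) (by positivity)) (good_theta n (η/2) (by positivity)))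
  linarith

/-- Lower bound `√(2n/π)` for every `n`; upper bound `(1+ε)√n` for all large `n`; upper bound from
any Hadamard number `N ≤ n + 1`; subadditivity up to `1`. -/
theorem result :
    (∀ n : ℕ, Real.sqrt (2 * n / Real.pi) ≤ theta n) ∧
    (∀ ε : ℝ, 0 < ε → ∃ n0 : ℕ, ∀ n : ℕ, n0 ≤ n → theta n ≤ (1 + ε) * Real.sqrt n) ∧
    (∀ n N : ℕ, IsHad N → 1 ≤ N → N ≤ n + 1 →
      theta n ≤ Real.sqrt N + Real.sqrt (2 * ((n:ℝ) + 1 - N) + 1) + 1) ∧
    (∀ m n : ℕ, theta (m + n) ≤ theta m + theta n + 1) :=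
  ⟨lower_asym, upper_asym, upper_had, subadd⟩

end Pool.Agent.Results.MP_4e07e5_an.Asymptotic
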