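import Mathlib

namespace Pool.Agent.Results.MP_4e07e5_an.Bounds
open Finset

/-- The cube `Q_n = [0,1]^n`. -/
def Cube (n : ℕ) : Set (Fin n → ℝ) := {y | ∀ i, 0 ≤ y i ∧ y i ≤ 1}

/-- The value at `y` of the polynomial `p.1 + Σ_i p.2 i * y i` of degree at most one. -/
def affEval {n : ℕ} (p : ℝ × (Fin n → ℝ)) (y : Fin n → ℝ) : ℝ := p.1 + ∑ i, p.2 i * y i

/-- `x 0, …, x n` are points of `Q_n` and `lam 0, …, lam n` are polynomials of degree at most one
with `lam j (x k) = δ_{jk}`: the `x k` are the vertices of a nondegenerate simplex in `Q_n` and the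
`lam j` are its basic Lagrange polynomials. -/
structure IsLagrange (n : ℕ) (x : Fin (n+1) → Fin n → ℝ) (lam : Fin (n+1) → ℝ × (Fin n → ℝ)) :
    Prop where
  mem : ∀ k, x k ∈ Cube n
  delta : ∀ j k, affEval (lam j) (x k) = if j = k then 1 else 0

/-- The operator norm (sup norms) on `C(Q_n)` of `P f = Σ_j f(x_j) λ_j`. -/
noncomputable def projNorm (n : ℕ) (x : Fin (n+1) → Fin n → ℝ)
    (lam : Fin (n+1) → ℝ × (Fin n → ℝ)) : ℝ :=
  sSup {r | ∃ f : (Fin n → ℝ) → ℝ, ContinuousOn f (Cube n) ∧ (∀ y ∈ Cube n, |f y| ≤ 1) ∧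
    ∃ y ∈ Cube n, r = |∑ j, f (x j) * affEval (lam j) y|}

/-- `θ_n(Q_n)`: the infimum of the norms of the interpolation projectors with nodes in `Q_n`. -/
noncomputable def theta (n : ℕ) : ℝ :=
  sInf {r | ∃ x lam, IsLagrange n x lam ∧ r = projNorm n x lam}

/-- sign of coordinate i for the set s -/
def sg {m : ℕ} (s : Finset (Fin m)) (i : Fin m) : ℝ := if i ∈ s then 1 else -1

noncomputable def F {m : ℕ} (b : Fin m → ℝ) : ℝ := ∑ s : Finset (Fin m), |∑ i, sg s i * b i|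

lemma F_perm {m : ℕ} (b : Fin m → ℝ) (π : Equiv.Perm (Fin m)) : F (fun i => b (π i)) = F b := by
  unfold F
  refine Fintype.sum_equiv π.finsetCongr _ _ (fun s => ?_)
  congr 1
  refine Fintype.sum_equiv π _ _ (fun i => ?_)
  simp [sg, Equiv.finsetCongr]

lemma F_abs {m : ℕ} (b : Fin m → ℝ) : F (fun i => |b i|) = F b := by
  unfold F
  let N : Finset (Fin m) := univ.filter (fun i => b i < 0)
  let e : Equiv.Perm (Finset (Fin m)) :=
    Function.Involutive.toPerm (fun s => symmDiff s N) (fun s => by simp)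
  refine Fintype.sum_equiv e _ _ (fun s => ?_)
  congr 1
  refine Finset.sum_congr rfl (fun i _ => ?_)
  have he : e s = symmDiff s N := rfl
  rw [he]
  by_cases hb : b i < 0
  · have hN : i ∈ N := by simp [N, hb]
    by_cases hs : i ∈ s
    · have : i ∉ symmDiff s N := by simp [Finset.mem_symmDiff, hs, hN]
      simp [sg, hs, this, abs_of_neg hb]
    · have : i ∈ symmDiff s N := by simp [Finset.mem_symmDiff, hs, hN]
      simp [sg, hs, this, abs_of_neg hb]
  · have hN : i ∉ N := by simp [N, hb]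
    by_cases hs : i ∈ s
    · have : i ∈ symmDiff s N := by simp [Finset.mem_symmDiff, hs, hN]
      simp [sg, hs, this, abs_of_nonneg (not_lt.mp hb)]
    · have : i ∉ symmDiff s N := by simp [Finset.mem_symmDiff, hs, hN]
      simp [sg, hs, this, abs_of_nonneg (not_lt.mp hb)]

noncomputable def G (m : ℕ) : ℝ := ∑ s : Finset (Fin m), |∑ i, sg s i|

lemma F_lower {n : ℕ} (b : Fin (n+1) → ℝ) : (∑ i, |b i|) * G (n+1) ≤ (n+1) * F b := by
  have h1 : ((n:ℝ)+1) * F b = ∑ c : Fin (n+1), F (fun i => |b (i + c)|) := by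
    have : ∀ c : Fin (n+1), F (fun i => |b (i + c)|) = F b := by
      intro c
      have := F_perm (fun i => |b i|) (Equiv.addRight c)
      simp only [Equiv.coe_addRight] at this
      rw [this, F_abs]
    simp [this]
  rw [h1]
  unfold F G
  rw [Finset.sum_comm, Finset.mul_sum]
  refine Finset.sum_le_sum (fun s _ => ?_)
  calc (∑ i, |b i|) * |∑ i, sg s i| = |(∑ c : Fin (n+1), ∑ i, sg s i * |b (i + c)|)| := by
        rw [Finset.sum_comm]
        have h2 : ∀ i : Fin (n+1), ∑ c, sg s i * |b (i + c)| = sg s i * ∑ k, |b k| := by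
          intro i
          rw [← Finset.mul_sum]
          congr 1
          exact Equiv.sum_comp (Equiv.addLeft i) (fun k => |b k|)
        have h3 : (0:ℝ) ≤ ∑ k, |b k| := Finset.sum_nonneg (fun _ _ => abs_nonneg _)
        simp only [h2]
        rw [← Finset.sum_mul, abs_mul, abs_of_nonneg h3, mul_comm]
    _ ≤ ∑ c : Fin (n+1), |(∑ i, sg s i * |b (i + c)|)| := Finset.abs_sum_le_sum_abs _ _

lemma sum_sg {m : ℕ} (s : Finset (Fin m)) : ∑ i, sg s i = 2 * (s.card : ℝ) - m := by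
  have : ∀ i, sg s i = 2 * (if i ∈ s then (1:ℝ) else 0) - 1 := by
    intro i; unfold sg; split_ifs <;> norm_num
  simp only [this]
  rw [Finset.sum_sub_distrib, ← Finset.mul_sum]
  simp

lemma G_eq_range (m : ℕ) : G m = ∑ k ∈ range (m+1), (m.choose k : ℝ) * |2 * (k:ℝ) - m| := by
  unfold G
  simp only [sum_sg]
  have h := Finset.sum_powerset_apply_card (fun k => |2 * (k:ℝ) - m|) (x := (univ : Finset (Fin m)))
  rw [Finset.powerset_univ] at h
  rw [h]
  simp [nsmul_eq_mul]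

noncomputable def v (n : ℕ) : ℕ → ℝ
  | 0 => 0
  | k+1 => (n.choose k : ℝ)

lemma ident (n k : ℕ) : ((n+1).choose k : ℝ) * (2 * (k:ℝ) - ((n+1 : ℕ):ℝ)) = (n+1) * (v n k - v n (k+1)) := by
  cases k with
  | zero => simp [v]
  | succ j =>
    have h1 := Nat.add_one_mul_choose_eq n j
    have h2 := Nat.choose_succ_succ n j
    have h1' : ((n:ℝ)+1) * (n.choose j : ℝ) = ((n+1).choose (j+1) : ℝ) * ((j:ℝ)+1) := by exact_mod_cast h1
    have h2' : ((n+1).choose (j+1) : ℝ) = (n.choose j : ℝ) + (n.choose (j+1) : ℝ) := by exact_mod_cast h2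
    simp only [v]
    push_cast
    have h3 : (n.choose (j+1) : ℝ) = ((n+1).choose (j+1) : ℝ) - (n.choose j : ℝ) := by linarith
    rw [h3]
    linear_combination -2 * h1'

lemma G_closed (n : ℕ) : G (n+1) = 2 * ((n+1) * (n.choose (n/2) : ℝ)) := by
  rw [G_eq_range]
  rw [← Finset.sum_range_add_sum_Ico _ (show n/2 + 1 ≤ n+1+1 by omega)]
  have hA : ∑ k ∈ range (n/2+1), ((n+1).choose k : ℝ) * |2 * (k:ℝ) - ((n+1 : ℕ):ℝ)| = (n+1) * (n.choose (n/2) : ℝ) := by
    have : ∀ k ∈ range (n/2+1), ((n+1).choose k : ℝ) * |2 * (k:ℝ) - ((n+1 : ℕ):ℝ)| = (n+1) * (v n (k+1) - v n k) := by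
      intro k hk
      have hk' : 2 * k ≤ n := by have := Finset.mem_range.mp hk; omega
      have hk2 : 2 * (k:ℝ) - ((n+1 : ℕ):ℝ) ≤ 0 := by
        have : (2 * (k:ℝ)) ≤ n := by exact_mod_cast hk'
        push_cast; linarith
      rw [abs_of_nonpos hk2]
      have := ident n k
      linear_combination -this
    rw [Finset.sum_congr rfl this, ← Finset.mul_sum, Finset.sum_range_sub]
    simp [v]
  have hB : ∑ k ∈ Ico (n/2+1) (n+1+1), ((n+1).choose k : ℝ) * |2 * (k:ℝ) - ((n+1 : ℕ):ℝ)| = (n+1) * (n.choose (n/2) : ℝ) := by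
    have : ∀ k ∈ Ico (n/2+1) (n+1+1), ((n+1).choose k : ℝ) * |2 * (k:ℝ) - ((n+1 : ℕ):ℝ)| = (n+1) * (v n k - v n (k+1)) := by
      intro k hk
      have hk' : n + 1 ≤ 2 * k := by have := (Finset.mem_Ico.mp hk).1; omega
      have hk2 : 0 ≤ 2 * (k:ℝ) - ((n+1 : ℕ):ℝ) := by
        have : ((n+1 : ℕ):ℝ) ≤ 2 * (k:ℝ) := by exact_mod_cast hk'
        linarith
      rw [abs_of_nonneg hk2]
      exact ident n k
    rw [Finset.sum_congr rfl this, ← Finset.mul_sum, Finset.sum_Ico_eq_sub _ (show n/2 + 1 ≤ n+1+1 by omega),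
      Finset.sum_range_sub', Finset.sum_range_sub']
    simp [v]
  rw [hA, hB]; ring


/-! ### the norm as the maximum of the Lebesgue function -/

lemma set_bdd {n : ℕ} {x : Fin (n+1) → Fin n → ℝ} {lam : Fin (n+1) → ℝ × (Fin n → ℝ)}
    (hx : ∀ k, x k ∈ Cube n) {C : ℝ} (hC : ∀ y ∈ Cube n, ∑ j, |affEval (lam j) y| ≤ C) :
    ∀ r ∈ {r | ∃ f : (Fin n → ℝ) → ℝ, ContinuousOn f (Cube n) ∧ (∀ y ∈ Cube n, |f y| ≤ 1) ∧
    ∃ y ∈ Cube n, r = |∑ j, f (x j) * affEval (lam j) y|}, r ≤ C := by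
  rintro r ⟨f, _, hf, y, hy, rfl⟩
  refine le_trans (Finset.abs_sum_le_sum_abs _ _) (le_trans ?_ (hC y hy))
  refine Finset.sum_le_sum (fun j _ => ?_)
  rw [abs_mul]
  have := hf (x j) (hx j)
  nlinarith [abs_nonneg (affEval (lam j) y)]

lemma exists_bdd {n : ℕ} (lam : Fin (n+1) → ℝ × (Fin n → ℝ)) :
    ∃ C, ∀ y ∈ Cube n, ∑ j, |affEval (lam j) y| ≤ C := by
  refine ⟨∑ j, (|(lam j).1| + ∑ i, |(lam j).2 i|), fun y hy => Finset.sum_le_sum (fun j _ => ?_)⟩
  unfold affEval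
  refine le_trans (abs_add_le _ _) (add_le_add le_rfl ?_)
  refine le_trans (Finset.abs_sum_le_sum_abs _ _) (Finset.sum_le_sum (fun i _ => ?_))
  rw [abs_mul]
  have h1 : |y i| ≤ 1 := by rw [abs_of_nonneg (hy i).1]; exact (hy i).2
  nlinarith [abs_nonneg ((lam j).2 i)]

lemma leb_le {n : ℕ} {x : Fin (n+1) → Fin n → ℝ} {lam : Fin (n+1) → ℝ × (Fin n → ℝ)}
    (h : IsLagrange n x lam) {y : Fin n → ℝ} (hy : y ∈ Cube n) :
    ∑ j, |affEval (lam j) y| ≤ projNorm n x lam := by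
  obtain ⟨C, hC⟩ := exists_bdd lam
  refine le_csSup ⟨C, set_bdd h.mem hC⟩ ?_
  let s : Fin (n+1) → ℝ := fun j => if 0 ≤ affEval (lam j) y then 1 else -1
  let f : (Fin n → ℝ) → ℝ := fun z => max (-1) (min 1 (∑ j, s j * affEval (lam j) z))
  have hcont : Continuous f := by
    unfold f affEval
    fun_prop
  have hval : ∀ k, f (x k) = s k := by
    intro k
    have : ∑ j, s j * affEval (lam j) (x k) = s k := by
      simp [h.delta]
    simp only [f, this]
    by_cases hs : 0 ≤ affEval (lam k) y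
    · simp [s, hs]
    · simp [s, hs]
  refine ⟨f, hcont.continuousOn, fun z _ => ?_, y, hy, ?_⟩
  · rw [abs_le]
    exact ⟨le_max_left _ _, max_le (by norm_num) (min_le_left _ _)⟩
  · have : ∀ j, f (x j) * affEval (lam j) y = |affEval (lam j) y| := by
      intro j
      rw [hval]
      by_cases hs : 0 ≤ affEval (lam j) y
      · simp [s, hs, abs_of_nonneg hs]
      · simp [s, hs, abs_of_neg (not_le.mp hs)]
    simp only [this]
    rw [abs_of_nonneg (Finset.sum_nonneg (fun _ _ => abs_nonneg _))]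

lemma projNorm_le {n : ℕ} {x : Fin (n+1) → Fin n → ℝ} {lam : Fin (n+1) → ℝ × (Fin n → ℝ)}
    (h : IsLagrange n x lam) {C : ℝ} (hC : ∀ y ∈ Cube n, ∑ j, |affEval (lam j) y| ≤ C) :
    projNorm n x lam ≤ C := by
  refine csSup_le ?_ (set_bdd h.mem hC)
  exact ⟨_, fun _ => 0, continuousOn_const, fun _ _ => by simp, fun _ => 0, fun _ => by simp, rfl⟩

/-! ### the lower bound -/

lemma sg_sq {m : ℕ} (s : Finset (Fin m)) (i : Fin m) : sg s i = 1 ∨ sg s i = -1 := by
  unfold sg; split_ifs <;> simp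

/-- centred coefficients -/
noncomputable def cen {n : ℕ} (p : ℝ × (Fin n → ℝ)) : Fin (n+1) → ℝ :=
  Fin.cons (p.1 + ∑ i, p.2 i / 2) (fun i => p.2 i / 2)

lemma cen_eval {n : ℕ} (p : ℝ × (Fin n → ℝ)) (y : Fin n → ℝ) :
    affEval p y = cen p 0 + ∑ i : Fin n, cen p i.succ * (2 * y i - 1) := by
  unfold affEval cen
  simp only [Fin.cons_zero, Fin.cons_succ]
  rw [add_assoc, ← Finset.sum_add_distrib]
  congr 1
  refine Finset.sum_congr rfl (fun i _ => ?_)
  ring

lemma one_le_cen {n : ℕ} {p : ℝ × (Fin n → ℝ)} {y : Fin n → ℝ} (hy : y ∈ Cube n)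
    (h1 : affEval p y = 1) : 1 ≤ ∑ i, |cen p i| := by
  rw [cen_eval] at h1
  rw [Fin.sum_univ_succ]
  have h2 : ∑ i : Fin n, cen p i.succ * (2 * y i - 1) ≤ ∑ i : Fin n, |cen p i.succ| := by
    refine Finset.sum_le_sum (fun i _ => ?_)
    refine le_trans (le_abs_self _) ?_
    rw [abs_mul]
    have h3 : |2 * y i - 1| ≤ 1 := by
      rw [abs_le]; constructor <;> linarith [(hy i).1, (hy i).2]
    nlinarith [abs_nonneg (cen p i.succ)]
  have h4 := le_abs_self (cen p 0)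
  linarith

/-- the vertex attached to a sign pattern -/
noncomputable def vert {n : ℕ} (s : Finset (Fin (n+1))) : Fin n → ℝ :=
  fun i => (1 + sg s 0 * sg s i.succ) / 2

lemma vert_mem {n : ℕ} (s : Finset (Fin (n+1))) : vert s ∈ Cube n := by
  intro i
  unfold vert
  rcases sg_sq s 0 with h | h <;> rcases sg_sq s i.succ with h' | h' <;> rw [h, h'] <;> norm_num

lemma vert_eval {n : ℕ} (s : Finset (Fin (n+1))) (p : ℝ × (Fin n → ℝ)) :
    |∑ i, sg s i * cen p i| = |affEval p (vert s)| := by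
  have h0 : ∑ i, sg s i * cen p i = sg s 0 * affEval p (vert s) := by
    rw [cen_eval, Fin.sum_univ_succ, mul_add, Finset.mul_sum]
    congr 1
    refine Finset.sum_congr rfl (fun i _ => ?_)
    unfold vert
    rcases sg_sq s 0 with h | h <;> rw [h] <;> ring
  rw [h0, abs_mul]
  rcases sg_sq s 0 with h | h <;> rw [h] <;> simp

lemma lower {n : ℕ} {x : Fin (n+1) → Fin n → ℝ} {lam : Fin (n+1) → ℝ × (Fin n → ℝ)}
    (h : IsLagrange n x lam) :
    ((n:ℝ)+1) * (n.choose (n/2) : ℝ) / 2^n ≤ projNorm n x lam := by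
  have h1 : ∑ j, F (cen (lam j)) ≤ 2^(n+1) * projNorm n x lam := by
    unfold F
    rw [Finset.sum_comm]
    have : ∀ s : Finset (Fin (n+1)), ∑ j, |∑ i, sg s i * cen (lam j) i| ≤ projNorm n x lam := by
      intro s
      simp only [vert_eval]
      exact leb_le h (vert_mem s)
    refine le_trans (Finset.sum_le_sum (fun s _ => this s)) ?_
    simp
  have hG := G_closed n
  have hGpos : 0 ≤ G (n+1) := by
    rw [hG]; positivity
  have h2 : ∀ j, G (n+1) ≤ ((n:ℝ)+1) * F (cen (lam j)) := by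
    intro j
    refine le_trans ?_ (F_lower (cen (lam j)))
    have := one_le_cen (h.mem j) (p := lam j) (by rw [h.delta]; simp)
    nlinarith
  have h3 : ((n:ℝ)+1) * G (n+1) ≤ ((n:ℝ)+1) * ∑ j, F (cen (lam j)) := by
    rw [Finset.mul_sum]
    refine le_trans ?_ (Finset.sum_le_sum (fun j _ => h2 j))
    simp
  have hn : (0:ℝ) < (n:ℝ)+1 := by positivity
  have h4 : G (n+1) ≤ 2^(n+1) * projNorm n x lam := le_trans (le_of_mul_le_mul_left h3 hn) h1
  rw [hG] at h4
  rw [div_le_iff₀ (by positivity)]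
  have h5 : (2:ℝ)^(n+1) = 2 * 2^n := by ring
  rw [h5] at h4
  nlinarith

lemma exists_lagrange (n : ℕ) : ∃ x lam, IsLagrange n x lam := by
  refine ⟨Fin.cons (fun _ => 0) (fun j i => if i = j then 1 else 0),
    Fin.cons (1, fun _ => -1) (fun j => (0, fun i => if i = j then 1 else 0)), ?_, ?_⟩
  · intro k i
    refine Fin.cases ?_ (fun j => ?_) k
    · simp
    · simp only [Fin.cons_succ]; split_ifs <;> norm_num
  · intro j k
    refine Fin.cases ?_ (fun j => ?_) j <;> refine Fin.cases ?_ (fun k => ?_) k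
    · simp [affEval]
    · simp [affEval, (Fin.succ_ne_zero k).symm]
    · simp [affEval, Fin.succ_ne_zero]
    · simp [affEval, eq_comm]

lemma theta_lower (n : ℕ) : ((n:ℝ)+1) * (n.choose (n/2) : ℝ) / 2^n ≤ theta n := by
  obtain ⟨x, lam, h⟩ := exists_lagrange n
  refine le_csInf ⟨_, x, lam, h, rfl⟩ ?_
  rintro r ⟨x, lam, h, rfl⟩
  exact lower h

lemma theta_le {n : ℕ} {x : Fin (n+1) → Fin n → ℝ} {lam : Fin (n+1) → ℝ × (Fin n → ℝ)}
    (h : IsLagrange n x lam) {C : ℝ} (hC : ∀ y ∈ Cube n, ∑ j, |affEval (lam j) y| ≤ C) :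
    theta n ≤ C := by
  refine le_trans (csInf_le ⟨0, ?_⟩ ⟨x, lam, h, rfl⟩) (projNorm_le h hC)
  rintro r ⟨x, lam, h, rfl⟩
  refine le_trans ?_ (leb_le h (h.mem 0))
  exact Finset.sum_nonneg (fun _ _ => abs_nonneg _)


/-! ### upper bounds -/

/-- the polynomial with centred coefficients `b` -/
noncomputable def ofCen {n : ℕ} (b : Fin (n+1) → ℝ) : ℝ × (Fin n → ℝ) :=
  (b 0 - ∑ i : Fin n, b i.succ, fun i => 2 * b i.succ)

lemma ofCen_eval {n : ℕ} (b : Fin (n+1) → ℝ) (y : Fin n → ℝ) :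
    affEval (ofCen b) y = ∑ i, b i * (Fin.cons 1 (fun i => 2 * y i - 1) : Fin (n+1) → ℝ) i := by
  unfold affEval ofCen
  rw [Fin.sum_univ_succ]
  simp only [Fin.cons_zero, Fin.cons_succ]
  rw [sub_add, ← Finset.sum_sub_distrib, mul_one, sub_eq_add_neg, ← Finset.sum_neg_distrib]
  congr 1
  refine Finset.sum_congr rfl (fun i _ => ?_)
  ring

lemma theta_le_of {n : ℕ} (Z B : Fin (n+1) → Fin (n+1) → ℝ) (h0 : ∀ k, Z k 0 = 1)
    (h1 : ∀ k i, |Z k i| ≤ 1) (h2 : ∀ j k, ∑ i, B j i * Z k i = if j = k then 1 else 0) (C : ℝ)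
    (hC : ∀ ζ : Fin (n+1) → ℝ, (∀ i, |ζ i| ≤ 1) → ∑ j, |∑ i, B j i * ζ i| ≤ C) : theta n ≤ C := by
  have hL : IsLagrange n (fun k i => (1 + Z k i.succ) / 2) (fun j => ofCen (B j)) := by
    refine ⟨fun k i => ?_, fun j k => ?_⟩
    · have := abs_le.mp (h1 k i.succ)
      constructor <;> linarith [this.1, this.2]
    · rw [ofCen_eval, ← h2 j k]
      refine Finset.sum_congr rfl (fun i _ => ?_)
      refine Fin.cases ?_ (fun i => ?_) i
      · simp [h0]
      · simp only [Fin.cons_succ]; ring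
  refine theta_le hL (fun y hy => ?_)
  simp only [ofCen_eval]
  refine hC _ (fun i => ?_)
  refine Fin.cases ?_ (fun i => ?_) i
  · simp
  · simp only [Fin.cons_succ]
    rw [abs_le]; constructor <;> linarith [(hy i).1, (hy i).2]

lemma trig_sums (m : ℕ) (hm : 0 < m) (r : ℤ) :
    (∑ k : Fin m, Real.sin ((k:ℕ) * (2 * Real.pi * r / m)) = 0) ∧
    ((∀ q : ℤ, r ≠ q * m) → ∑ k : Fin m, Real.cos ((k:ℕ) * (2 * Real.pi * r / m)) = 0) := by
  set θ : ℝ := 2 * Real.pi * r / m with hθ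
  have hm' : (m:ℂ) ≠ 0 := by exact_mod_cast hm.ne'
  have hm'' : (m:ℝ) ≠ 0 := by exact_mod_cast hm.ne'
  let w : ℂ := Complex.exp ((θ:ℂ) * Complex.I)
  have hpow : ∀ k : ℕ, w ^ k = Complex.exp ((((k:ℝ) * θ : ℝ) : ℂ) * Complex.I) := by
    intro k
    rw [← Complex.exp_nat_mul]
    congr 1
    push_cast; ring
  have hwm : w ^ m = 1 := by
    rw [hpow]
    have : (((m:ℝ) * θ : ℝ) : ℂ) * Complex.I = (r:ℂ) * (2 * Real.pi * Complex.I) := by
      have h5 : (m:ℝ) * θ = 2 * Real.pi * r := by rw [hθ]; field_simp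
      rw [h5]; push_cast; ring
    rw [this, Complex.exp_int_mul_two_pi_mul_I]
  have hre : ∀ k : ℕ, (w ^ k).re = Real.cos (k * θ) := by
    intro k; rw [hpow, Complex.exp_ofReal_mul_I_re]
  have him : ∀ k : ℕ, (w ^ k).im = Real.sin (k * θ) := by
    intro k; rw [hpow, Complex.exp_ofReal_mul_I_im]
  have hsumre : ∑ k : Fin m, Real.cos ((k:ℕ) * θ) = (∑ k ∈ range m, w ^ k).re := by
    rw [Complex.re_sum, Finset.sum_range]
    exact Finset.sum_congr rfl (fun k _ => (hre k).symm)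
  have hsumim : ∑ k : Fin m, Real.sin ((k:ℕ) * θ) = (∑ k ∈ range m, w ^ k).im := by
    rw [Complex.im_sum, Finset.sum_range]
    exact Finset.sum_congr rfl (fun k _ => (him k).symm)
  have hne : w ≠ 1 → ∑ k ∈ range m, w ^ k = 0 := by
    intro hw
    rw [geom_sum_eq hw, hwm]; simp
  refine ⟨?_, fun hr => ?_⟩
  · rw [hsumim]
    by_cases hw : w = 1
    · rw [hw]; simp
    · rw [hne hw]; simp
  · rw [hsumre, hne, Complex.zero_re]
    intro hw
    obtain ⟨q, hq⟩ := Complex.exp_eq_one_iff.mp hw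
    apply hr q
    have h6 : (θ:ℂ) = ((q * (2 * Real.pi) : ℝ) : ℂ) := by
      have := mul_right_cancel₀ Complex.I_ne_zero (show (θ:ℂ) * Complex.I = ((q * (2 * Real.pi) : ℝ) : ℂ) * Complex.I by rw [hq]; push_cast; ring)
      exact this
    have h7 : θ = q * (2 * Real.pi) := by exact_mod_cast h6
    rw [hθ, div_eq_iff hm''] at h7
    have h8 : (r:ℝ) = q * m := by
      have hpi := Real.pi_pos
      have : (2 * Real.pi) * (r:ℝ) = (2 * Real.pi) * (q * m) := by linarith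
      exact mul_left_cancel₀ (by positivity) this
    exact_mod_cast h8

/-- the (symmetric) Hartley matrix -/
noncomputable def hart (m : ℕ) (k i : ℕ) : ℝ :=
  Real.cos (2 * Real.pi * k * i / m) + Real.sin (2 * Real.pi * k * i / m)

lemma hart_symm (m k i : ℕ) : hart m k i = hart m i k := by
  unfold hart
  have : 2 * Real.pi * (k:ℝ) * i / m = 2 * Real.pi * (i:ℝ) * k / m := by ring
  rw [this]

lemma hart_orth (n : ℕ) (i j : Fin (n+1)) :
    ∑ k : Fin (n+1), hart (n+1) k i * hart (n+1) k j = if i = j then ((n:ℝ)+1) else 0 := by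
  have hprod : ∀ k : Fin (n+1), hart (n+1) k i * hart (n+1) k j =
      Real.cos ((k:ℕ) * (2 * Real.pi * (((i:ℕ):ℤ) - ((j:ℕ):ℤ) : ℤ) / ((n+1 : ℕ):ℝ))) +
      Real.sin ((k:ℕ) * (2 * Real.pi * (((i:ℕ):ℤ) + ((j:ℕ):ℤ) : ℤ) / ((n+1 : ℕ):ℝ))) := by
    intro k
    unfold hart
    have e1 : ((k:ℕ):ℝ) * (2 * Real.pi * ((((i:ℕ):ℤ) - ((j:ℕ):ℤ) : ℤ):ℝ) / ((n+1 : ℕ):ℝ)) =
        2 * Real.pi * (k:ℕ) * (i:ℕ) / ((n+1 : ℕ):ℝ) - 2 * Real.pi * (k:ℕ) * (j:ℕ) / ((n+1 : ℕ):ℝ) := by
      push_cast; ring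
    have e2 : ((k:ℕ):ℝ) * (2 * Real.pi * ((((i:ℕ):ℤ) + ((j:ℕ):ℤ) : ℤ):ℝ) / ((n+1 : ℕ):ℝ)) =
        2 * Real.pi * (k:ℕ) * (i:ℕ) / ((n+1 : ℕ):ℝ) + 2 * Real.pi * (k:ℕ) * (j:ℕ) / ((n+1 : ℕ):ℝ) := by
      push_cast; ring
    rw [e1, e2, Real.cos_sub, Real.sin_add]
    ring
  simp only [hprod]
  rw [Finset.sum_add_distrib, (trig_sums (n+1) (Nat.succ_pos n) _).1, add_zero]
  by_cases hij : i = j
  · subst hij; simp
  · rw [if_neg hij]
    refine (trig_sums (n+1) (Nat.succ_pos n) _).2 (fun q hq => hij ?_)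
    have hi := i.isLt
    have hj := j.isLt
    have hq0 : q = 0 := by
      by_contra hne
      rcases lt_or_gt_of_ne hne with h | h
      · have h9 : q ≤ -1 := by omega
        have h10 : q * ((n+1:ℕ):ℤ) ≤ -1 * ((n+1:ℕ):ℤ) := mul_le_mul_of_nonneg_right h9 (by positivity)
        omega
      · have h9 : 1 ≤ q := by omega
        have h10 : 1 * ((n+1:ℕ):ℤ) ≤ q * ((n+1:ℕ):ℤ) := mul_le_mul_of_nonneg_right h9 (by positivity)
        omega
    rw [hq0] at hq
    apply Fin.ext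
    omega

lemma hart_le (m k i : ℕ) : |hart m k i| ≤ Real.sqrt 2 := by
  unfold hart
  apply Real.abs_le_sqrt
  nlinarith [Real.sin_sq_add_cos_sq (2 * Real.pi * k * i / m),
    sq_nonneg (Real.cos (2 * Real.pi * k * i / m) - Real.sin (2 * Real.pi * k * i / m))]

/-- weights -/
noncomputable def wt {n : ℕ} (i : Fin (n+1)) : ℝ := if i = 0 then 1 else Real.sqrt 2

lemma wt_pos {n : ℕ} (i : Fin (n+1)) : 0 < wt i := by
  unfold wt; split_ifs <;> positivity

lemma sum_wt_sq (n : ℕ) : ∑ i : Fin (n+1), (wt i)^2 = 2 * n + 1 := by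
  rw [Fin.sum_univ_succ]
  simp only [wt, Fin.succ_ne_zero, if_true, if_false]
  rw [Real.sq_sqrt (by norm_num)]
  simp; ring

theorem theta_upper (n : ℕ) : theta n ≤ Real.sqrt (2 * n + 1) := by
  have hn : (0:ℝ) < (n:ℝ) + 1 := by positivity
  refine theta_le_of (fun k i => hart (n+1) k i / wt i) (fun j i => wt i * hart (n+1) j i / (n+1)) ?_ ?_ ?_ _ ?_
  · intro k
    simp [hart, wt]
  · intro k i
    rw [abs_div, abs_of_pos (wt_pos i), div_le_one (wt_pos i)]
    by_cases hi : i = 0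
    · subst hi; simp [hart, wt]
    · simp only [wt, hi, if_false]
      exact hart_le _ _ _
  · intro j k
    have : ∀ i : Fin (n+1), wt i * hart (n+1) j i / (n+1) * (hart (n+1) k i / wt i) =
        (hart (n+1) i j * hart (n+1) i k) / (n+1) := by
      intro i
      have := (wt_pos i).ne'
      rw [hart_symm (n+1) j i, hart_symm (n+1) k i]
      field_simp
    simp only [this]
    rw [← Finset.sum_div, hart_orth]
    split_ifs
    · exact div_self hn.ne'
    · simp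
  · intro ζ hζ
    have key : ∑ j : Fin (n+1), (∑ i : Fin (n+1), wt i * hart (n+1) j i / (n+1) * ζ i)^2 =
        (∑ i : Fin (n+1), (wt i * ζ i)^2) / (n+1) := by
      have h1 : ∀ j : Fin (n+1), (∑ i : Fin (n+1), wt i * hart (n+1) j i / (n+1) * ζ i)^2 =
          ∑ a : Fin (n+1), ∑ b : Fin (n+1), (wt a * ζ a) * (wt b * ζ b) / (n+1)^2 *
            (hart (n+1) j a * hart (n+1) j b) := by
        intro j
        rw [sq, Finset.sum_mul_sum]
        refine Finset.sum_congr rfl (fun a _ => Finset.sum_congr rfl (fun b _ => ?_))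
        field_simp
      simp only [h1]
      rw [Finset.sum_comm, Finset.sum_div]
      refine Finset.sum_congr rfl (fun a _ => ?_)
      rw [Finset.sum_comm]
      simp only [← Finset.mul_sum, hart_orth]
      simp
      field_simp
    have h2 : (∑ j : Fin (n+1), |∑ i : Fin (n+1), wt i * hart (n+1) j i / (n+1) * ζ i|)^2 ≤ 2 * n + 1 := by
      refine le_trans (sq_sum_le_card_mul_sum_sq) ?_
      simp only [sq_abs]
      rw [key, Finset.card_univ, Fintype.card_fin]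
      push_cast
      rw [mul_div_cancel₀ _ hn.ne']
      rw [← sum_wt_sq n]
      refine Finset.sum_le_sum (fun i _ => ?_)
      rw [mul_pow]
      have h3 : (ζ i)^2 ≤ 1 := by
        rw [← sq_abs]; nlinarith [abs_nonneg (ζ i), hζ i]
      nlinarith [sq_nonneg (wt i)]
    exact Real.le_sqrt_of_sq_le h2


lemma cert {n : ℕ} (Z BI : Fin (n+1) → Fin (n+1) → ℤ) (D N : ℤ) (hD : 0 < D)
    (h0 : ∀ k, Z k 0 = 1) (h1 : ∀ k i, |Z k i| ≤ 1)
    (h2 : ∀ j k, ∑ i, BI i j * Z k i = if j = k then D else 0)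
    (h3 : ∀ δ : Fin (n+1) → Bool, ∑ i, |∑ j, (if δ j then BI i j else - BI i j)| ≤ N) :
    theta n ≤ (N:ℝ) / D := by
  have hD' : (0:ℝ) < D := by exact_mod_cast hD
  refine theta_le_of (fun k i => (Z k i : ℝ)) (fun j i => (BI i j : ℝ) / D) ?_ ?_ ?_ _ ?_
  · intro k; rw [h0]; simp
  · intro k i; exact_mod_cast h1 k i
  · intro j k
    have h := h2 j k
    have h' : ∑ i, (BI i j : ℝ) * (Z k i : ℝ) = if j = k then (D:ℝ) else 0 := by
      exact_mod_cast h
    have : ∀ i, (BI i j : ℝ) / D * (Z k i : ℝ) = (BI i j : ℝ) * (Z k i : ℝ) / D := by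
      intro i; ring
    simp only [this]
    rw [← Finset.sum_div, h']
    split_ifs
    · exact div_self hD'.ne'
    · simp
  · intro ζ hζ
    let δ : Fin (n+1) → Bool := fun j => decide (0 ≤ ∑ i, (BI i j : ℝ) / D * ζ i)
    have hδ : ∀ j, |∑ i, (BI i j : ℝ) / D * ζ i| =
        ∑ i, (((if δ j then BI i j else - BI i j : ℤ) : ℝ) * ζ i) / D := by
      intro j
      by_cases hs : 0 ≤ ∑ i, (BI i j : ℝ) / D * ζ i
      · have : δ j = true := by simp [δ, hs]
        rw [abs_of_nonneg hs]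
        refine Finset.sum_congr rfl (fun i _ => ?_)
        simp only [this, if_true]; ring
      · have : δ j = false := by simp [δ]; exact not_le.mp hs
        rw [abs_of_neg (not_le.mp hs), ← Finset.sum_neg_distrib]
        refine Finset.sum_congr rfl (fun i _ => ?_)
        simp only [this]
        push_cast
        simp
        ring
    simp only [hδ]
    rw [Finset.sum_comm]
    have h4 : ∀ i, ∑ j, (((if δ j then BI i j else - BI i j : ℤ) : ℝ) * ζ i) / D ≤
        |((∑ j, (if δ j then BI i j else - BI i j) : ℤ) : ℝ)| / D := by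
      intro i
      rw [← Finset.sum_div, ← Finset.sum_mul]
      apply div_le_div_of_nonneg_right _ hD'.le
      rw [← Int.cast_sum]
      refine le_trans (le_abs_self _) ?_
      rw [abs_mul]
      have := abs_nonneg ((∑ j, (if δ j then BI i j else - BI i j) : ℤ) : ℝ)
      nlinarith [hζ i]
    refine le_trans (Finset.sum_le_sum (fun i _ => h4 i)) ?_
    rw [← Finset.sum_div]
    apply div_le_div_of_nonneg_right _ hD'.le
    exact_mod_cast h3 δ

/-- nodes for `n = 8` (rows, with first coordinate `1`) -/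
def Z8 : Fin 9 → Fin 9 → ℤ :=
  ![![1, -1, 1, -1, 1, -1, -1, 1, 1],
    ![1, 1, 1, -1, -1, -1, -1, -1, -1],
    ![1, 1, -1, 1, 1, -1, -1, 1, -1],
    ![1, -1, -1, -1, 1, -1, 1, -1, -1],
    ![1, 0, -1, 0, -1, 1, 0, 0, 1],
    ![1, 1, 1, -1, 1, 1, 1, 1, -1],
    ![1, 1, 1, 1, 1, -1, 1, -1, 1],
    ![1, -1, 1, 1, 1, 1, -1, -1, -1],
    ![1, -1, 1, 1, -1, -1, 1, 1, -1]]

/-- `24` times the inverse of `Z8` -/
def B8 : Fin 9 → Fin 9 → ℤ :=
  ![![2, 2, 2, 2, 8, 2, 2, 2, 2],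
    ![-3, 3, 3, -3, 0, 3, 3, -3, -3],
    ![2, 2, -4, -4, -4, 2, 2, 2, 2],
    ![-3, -3, 3, -3, 0, -3, 3, 3, 3],
    ![2, -4, 2, 2, -4, 2, 2, 2, -4],
    ![-2, -2, -2, -2, 4, 4, -2, 4, -2],
    ![-3, -3, -3, 3, 0, 3, 3, -3, 3],
    ![3, -3, 3, -3, 0, 3, -3, -3, 3],
    ![4, -2, -2, -2, 4, -2, 4, -2, -2]]

theorem key8 : ∀ δ : Fin 9 → Bool, ∑ i, |∑ j, (if δ j then B8 i j else - B8 i j)| ≤ 72 := by
  decide +kernel

theorem theta_eight : theta 8 ≤ 3 := by
  have h := cert (n := 8) Z8 B8 24 72 (by norm_num) (by decide +kernel) (by decide +kernel)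
    (by decide +kernel) key8
  norm_num at h
  exact h


/-- Two-sided bounds for `θ_n(Q_n)` for every `n`, and an improved upper bound for `n = 8`. -/
theorem result :
    (∀ n : ℕ, ((n:ℝ) + 1) * (n.choose (n / 2) : ℝ) / 2 ^ n ≤ theta n ∧
      theta n ≤ Real.sqrt (2 * n + 1)) ∧
    theta 8 ≤ 3 :=
  ⟨fun n => ⟨theta_lower n, theta_upper n⟩, theta_eight⟩

end Pool.Agent.Results.MP_4e07e5_an.Bounds
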